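import Pool.Agent.Helper41.OWN.LMd

/-!
# Weakly closed algebras whose invariant linear manifolds are invariant under the adjoints

Own statement beside the proof of the frozen statement S05531. `H →WOT[ℂ] H` is the type of Mathlib
of all bounded operators on `H` with the weak operator topology; its product is the composition and
`star` is the adjoint.
-/

set_option autoImplicit false

namespace Pool.Agent.Results.MP_9c1529_an.PointwiseAdjoint

/-- Let `A` be a unital subalgebra of `B(H)` which is closed in the weak operator topology. Equivalent
are: `A` is self-adjoint; every linear manifold (not necessarily closed subspace) invariant under `A`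
is invariant under the adjoints of the elements of `A`; for every vector `x` and every `T ∈ A` there
is `S ∈ A` with `S x = T* x`. -/
theorem result {H : Type*} [NormedAddCommGroup H] [InnerProductSpace ℂ H] [CompleteSpace H]
    (A : Subalgebra ℂ (H →WOT[ℂ] H)) (hA : IsClosed (A : Set (H →WOT[ℂ] H))) :
    List.TFAE [
      (∀ T ∈ A, star T ∈ A),
      (∀ M : Submodule ℂ H, (∀ T ∈ A, ∀ v ∈ M, T v ∈ M) →
        ∀ T ∈ A, ∀ v ∈ M, (star T) v ∈ M),
      (∀ x : H, ∀ T ∈ A, ∃ S ∈ A, S x = (star T) x)] :=
  Pool.Agent.Helper41.OWN.main A hA

end Pool.Agent.Results.MP_9c1529_an.PointwiseAdjoint
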